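import Pool.Agent.Y685.SY.Stm2

/-!
# Project SY: taming at the centre, orientation
-/

set_option autoImplicit false
set_option maxSynthPendingDepth 3

open scoped Manifold ContDiff Topology ENNReal
open MeasureTheory Set Metric Filter

namespace Pool.Agent.Y547.SY

open Pool.Agent.Y685.SY

section
variable {E : Type} [NormedAddCommGroup E] [InnerProductSpace ℝ E] [FiniteDimensional ℝ E]
  [MeasurableSpace E] [BorelSpace E]

theorem norml (b : E →L[ℝ] E →L[ℝ] ℝ) (Q : E →L[ℝ] E) {u : E} (hu : u ≠ 0) :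
    ‖(‖u‖⁻¹ : ℝ) • u‖ = 1 ∧
      b u (Q u) = ‖u‖ ^ 2 * b ((‖u‖⁻¹ : ℝ) • u) (Q ((‖u‖⁻¹ : ℝ) • u)) := by
  have h0 : ‖u‖ ≠ 0 := norm_ne_zero_iff.2 hu
  constructor
  · rw [norm_smul, norm_inv, norm_norm, inv_mul_cancel₀ h0]
  · simp only [map_smul, ContinuousLinearMap.smul_apply, smul_eq_mul]
    field_simp

variable (E) in
/-- the volume of the unit ball -/
noncomputable def vb : ℝ := (volume (ball (0 : E) 1)).toReal

theorem vb_pos : 0 < vb E := by
  unfold vb
  exact ENNReal.toReal_pos (measure_ball_pos volume _ one_pos).ne' measure_ball_lt_top.ne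

theorem vol_contra (x : E) {r a b : ℝ} (hr : 0 < r) (ha : 0 ≤ a) (hb : 0 ≤ b) (hab : b < a * vb E)
    (h : ENNReal.ofReal a * volume (ball x r) ≤ ENNReal.ofReal (b * r ^ Module.finrank ℝ E)) :
    False := by
  have hV : volume (ball (0 : E) 1) = ENNReal.ofReal (vb E) := by
    unfold vb
    rw [ENNReal.ofReal_toReal measure_ball_lt_top.ne]
  have hp : 0 < r ^ Module.finrank ℝ E := by positivity
  rw [Measure.addHaar_ball_of_pos volume x hr, hV, ← ENNReal.ofReal_mul hp.le, ← ENNReal.ofReal_mul ha,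
    ENNReal.ofReal_le_ofReal_iff (by positivity)] at h
  have h2 : b * r ^ Module.finrank ℝ E < a * vb E * r ^ Module.finrank ℝ E :=
    mul_lt_mul_of_pos_right hab hp
  linarith

theorem nbhd {K U : Set E} (hU : IsOpen U) (hKU : K ⊆ U) (hK : IsCompact K) :
    ∃ δ : ℝ, 0 < δ ∧ ∀ x ∈ K, ball x δ ⊆ U := by
  obtain ⟨δ, hδ, h1⟩ := hK.exists_cthickening_subset_open hU hKU
  refine ⟨δ, hδ, fun x hx y hy => h1 ?_⟩
  exact mem_cthickening_of_dist_le y x δ K hx (mem_ball.1 hy).le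

theorem unif {F : Type} [NormedAddCommGroup F] {K U : Set E} {τ : E → F} (hU : IsOpen U)
    (hKU : K ⊆ U) (hK : IsCompact K) (hτ : ContinuousOn τ U) {ε : ℝ} (hε : 0 < ε) :
    ∃ δ : ℝ, 0 < δ ∧ ∀ x ∈ K, ∀ y ∈ ball x δ, ‖τ y - τ x‖ ≤ ε := by
  obtain ⟨δ₁, hδ₁, h1⟩ := hK.exists_cthickening_subset_open hU hKU
  have h2 : IsCompact (cthickening δ₁ K) := hK.cthickening
  have h3 := h2.uniformContinuousOn_of_continuous (hτ.mono h1)
  rw [Metric.uniformContinuousOn_iff] at h3
  obtain ⟨δ₂, hδ₂, h4⟩ := h3 ε hε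
  refine ⟨min δ₁ δ₂, lt_min hδ₁ hδ₂, fun x hx y hy => ?_⟩
  rw [mem_ball] at hy
  have hy1 : y ∈ cthickening δ₁ K :=
    mem_cthickening_of_dist_le y x δ₁ K hx (hy.le.trans (min_le_left _ _))
  have hx1 : x ∈ cthickening δ₁ K := self_subset_cthickening K hx
  have := h4 y hy1 x hx1 (lt_of_lt_of_le hy (min_le_right _ _))
  rw [dist_eq_norm] at this
  exact this.le

theorem le_defect (c : ℝ) (b : E →L[ℝ] E →L[ℝ] ℝ) (Q : E →L[ℝ] E) {w : E} (hw : ‖w‖ = 1) :
    ENNReal.ofReal (c - b w (Q w)) ≤ defect c b Q := by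
  unfold defect
  exact le_iSup₂_of_le w hw le_rfl

end

section
variable (E : Type) [NormedAddCommGroup E] [InnerProductSpace ℝ E] [FiniteDimensional ℝ E]
  [MeasurableSpace E] [BorelSpace E]

theorem t_CTR : S_CTR E := by
  intro τ U K hU hτ hKU hK C c hc
  have hv := vb_pos (E := E)
  obtain ⟨δ, hδ, h1⟩ := unif hU hKU hK hτ (ε := c / (4 * (|C| + 1))) (by positivity)
  refine ⟨c / 8 * vb E, by positivity, δ, hδ, ?_⟩
  intro x hx r hr hrδ Q hQ hint u hu
  by_contra hcon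
  push Not at hcon
  obtain ⟨hw1, hw2⟩ := norml (τ x) Q hu
  set w := (‖u‖⁻¹ : ℝ) • u with hw
  have hu2 : 0 < ‖u‖ ^ 2 := by
    have := norm_pos_iff.2 hu
    positivity
  have hw3 : τ x w (Q w) ≤ 0 := by
    rw [hw2] at hcon
    by_contra h
    push Not at h
    exact absurd hcon (not_le.2 (mul_pos hu2 h))
  have h2 : ∀ y ∈ ball x r, ENNReal.ofReal (c / 2) ≤ defect c (τ y) Q := by
    intro y hy
    refine le_trans (ENNReal.ofReal_le_ofReal ?_) (le_defect c (τ y) Q hw1)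
    have h3 := h1 x hx y (ball_subset_ball hrδ.le hy)
    have h4 : |(τ y - τ x) w (Q w)| ≤ ‖τ y - τ x‖ * ‖w‖ * ‖Q w‖ := by
      have := (τ y - τ x).le_opNorm₂ w (Q w)
      rwa [Real.norm_eq_abs] at this
    have h5 : ‖Q w‖ ≤ |C| + 1 := by
      have e1 := Q.le_opNorm w
      rw [hw1, mul_one] at e1
      have e2 := le_abs_self C
      linarith
    have h6 : ‖τ y - τ x‖ * ‖w‖ * ‖Q w‖ ≤ c / (4 * (|C| + 1)) * (|C| + 1) := by
      rw [hw1, mul_one]
      exact mul_le_mul h3 h5 (norm_nonneg _) (by positivity)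
    have h7 : c / (4 * (|C| + 1)) * (|C| + 1) = c / 4 := by
      have : |C| + 1 ≠ 0 := by positivity
      field_simp
    have h8 : (τ y - τ x) w (Q w) = τ y w (Q w) - τ x w (Q w) := rfl
    rw [h8] at h4
    have h9 := (abs_le.1 (h4.trans (h6.trans h7.le))).2
    linarith
  have h3 : ENNReal.ofReal (c / 2) * volume (ball x r) ≤
      ENNReal.ofReal (c / 8 * vb E * r ^ Module.finrank ℝ E) := by
    rw [← setLIntegral_const]
    exact (setLIntegral_mono' measurableSet_ball h2).trans hint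
  exact vol_contra x hr (by positivity) (by positivity)
    (by nlinarith [mul_pos hc hv]) h3

theorem t_ORI : S_ORI E := by
  intro Θ τ U K hU hτ hN hJ hKU hK c hc
  have hv := vb_pos (E := E)
  obtain ⟨δ, hδ, h1⟩ := nbhd hU hKU hK
  refine ⟨c / 8 * vb E, by positivity, δ, hδ, ?_⟩
  intro x hx r hr hrδ Q hint
  have hbU : ball x r ⊆ U := (ball_subset_ball hrδ.le).trans (h1 x hx)
  have hz : ∃ z ∈ ball x r, defect c (Θ z) Q ≤ ENNReal.ofReal (c / 2) ∧
      JoinedIn (NDA E) (Θ z) (τ z) := by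
    by_contra hcon
    push Not at hcon
    have h2 : ∀ᵐ y ∂(volume.restrict (ball x r)), JoinedIn (NDA E) (Θ y) (τ y) :=
      ae_restrict_of_ae_restrict_of_subset hbU hJ
    have h3 : ∀ᵐ y ∂(volume.restrict (ball x r)), ENNReal.ofReal (c / 2) ≤ defect c (Θ y) Q := by
      filter_upwards [h2, ae_restrict_mem measurableSet_ball] with y hy1 hy2
      by_contra h
      push Not at h
      exact hcon y hy2 h.le hy1
    have h4 : ENNReal.ofReal (c / 2) * volume (ball x r) ≤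
        ENNReal.ofReal (c / 8 * vb E * r ^ Module.finrank ℝ E) := by
      rw [← setLIntegral_const]
      exact (lintegral_mono_ae h3).trans hint
    exact vol_contra x hr (by positivity) (by positivity)
      (by nlinarith [mul_pos hc hv]) h4
  obtain ⟨z, hzb, hzd, hzJ⟩ := hz
  refine ⟨Θ z, hzJ.source_mem, ?_, ?_⟩
  · intro u hu
    obtain ⟨hw1, hw2⟩ := norml (Θ z) Q hu
    have h2 := (le_defect c (Θ z) Q hw1).trans hzd
    rw [ENNReal.ofReal_le_ofReal_iff (by positivity)] at h2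
    rw [hw2]
    have := norm_pos_iff.2 hu
    apply mul_pos (by positivity)
    linarith
  · have hpc : IsPathConnected (ball x r) :=
      (convex_ball x r).isPathConnected ⟨x, mem_ball_self hr⟩
    have h2 := (hpc.image' (hτ.mono hbU)).joinedIn (τ z) (mem_image_of_mem τ hzb) (τ x)
      (mem_image_of_mem τ (mem_ball_self hr))
    refine hzJ.trans (h2.mono ?_)
    rintro _ ⟨y, hy, rfl⟩
    exact hN y (hbU hy)

end

end Pool.Agent.Y547.SY
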